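import Pool.Agent.X159.MB.LV

/-!
# Montgomery's large value conjecture without coefficients

Q1 is equivalent to the estimate `|∑_{n ∈ S} ∑_{t ∈ W} n^{it}| ≤ C N^(1+ε) |W|^(1/2)` for all sets
`S` of integers in `[N, 2N]` and all sets `W` of at most `N` integers in `[0, N^A]`, to the estimate
`∑_{N ≤ n ≤ 2N} |∑_{t ∈ W} n^{it}| ≤ C N^(1+ε) |W|^(1/2)`, and to the case of the coefficients
`0` and `1`.
-/

set_option autoImplicit false

namespace Pool.Agent.Results.MP_ecd12e_nt.BilinearSets

open Pool.Agent.X159.MB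

theorem result :
    (Montgomery ↔ Bilinear) ∧ (Montgomery ↔ MeanValue) ∧ (Montgomery ↔ ForSets) := main

end Pool.Agent.Results.MP_ecd12e_nt.BilinearSets
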