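import Pool.Agent.X108.HB.BL

set_option autoImplicit false

/-!
# Sets of large values of large additive energy

Let `D(t) = ∑_{N ≤ n ≤ 2N} b_n n^{it}`, `|b_n| ≤ 1`, `m ≥ 1` and `(2N)^(2m) ≤ T`.

(a) If `|D| ≥ V` on a set `W` of at least `T^β` integers of `[0,T]`, then
`V² E(W) ≤ C T^ε |W|³ N^γ`, `γ = max (1, 2 (1-β) (m+1) / (m+1-β))`. In particular
`V² E(W) ≤ C T^ε |W|³ N` for `|W| ≥ T^((m+1)/(2m+1))`.

(b) Let `|D| > N^σ` on `W ⊂ ℤ ∩ [0,T]`, `T ≤ N^A`, `E(W) ≥ N^(-κ) |W|³`, and let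
`y = 2σ - κ > 1`. Then `|W| ≤ C T^(e+ε)`, `e = (2-y) / (2 - y/(m+1))`, which tends to
`1 - σ + κ/2` as `m → ∞`.
-/

namespace Pool.Agent.Results.MP_ecd12e_nt.LargeAdditiveEnergy

open Finset Pool.Agent.X108.HB

/-- `D(t) = ∑_{N ≤ n ≤ 2N} b_n n^{it}` -/
noncomputable def D (N : ℕ) (b : ℕ → ℂ) (t : ℝ) : ℂ :=
  ∑ n ∈ Finset.Icc N (2 * N), b n * Complex.exp (((t * Real.log (n : ℝ) : ℝ) : ℂ) * Complex.I)

theorem partA (m : ℕ) (hm : 1 ≤ m) (ε : ℝ) (hε : 0 < ε) :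
    ∃ C : ℝ, 1 ≤ C ∧ ∀ (β T V : ℝ) (N : ℕ) (b : ℕ → ℂ) (W : Finset ℤ), 0 ≤ β → β ≤ 1 → 1 ≤ N → 0 ≤ V →
      (2 * N : ℝ) ^ (2 * m) ≤ T → (∀ n ∈ Finset.Icc N (2 * N), ‖b n‖ ≤ 1) →
      (∀ t ∈ W, 0 ≤ (t : ℝ) ∧ (t : ℝ) ≤ T ∧ V ≤ ‖D N b t‖) → T ^ β ≤ (W.card : ℝ) →
      V ^ 2 * (W.addEnergy W : ℕ) ≤
        C * T ^ ε * (W.card : ℝ) ^ 3 * (N : ℝ) ^ max 1 (2 * (1 - β) * (m + 1) / (m + 1 - β)) := by
  classical
  obtain ⟨C, hC1, hC⟩ := Z2 hε m hm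
  refine ⟨4 * C, by linarith, ?_⟩
  intro β T V N b W hβ0 hβ1 hN hV hNT hb hW hTβ
  have hNr : (1 : ℝ) ≤ N := by exact_mod_cast hN
  have hT1 : 1 ≤ T := le_trans (one_le_pow₀ (by linarith)) hNT
  have hT0 : 0 < T := by linarith
  have hmr : (1 : ℝ) ≤ m := by exact_mod_cast hm
  set I : Finset ℕ := Icc N (2 * N) with hI
  have hIN : I ⊆ Icc 1 (2 * N) := Icc_subset_Icc hN le_rfl
  have hI1 : ∀ n ∈ I, 1 ≤ n := fun n hn => (mem_Icc.1 (hIN hn)).1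
  set S : Finset ℝ := W.image (fun t : ℤ => (t : ℝ)) with hS
  have hinj : Function.Injective (fun t : ℤ => (t : ℝ)) := Int.cast_injective
  have hcard : S.card = W.card := card_image_of_injective _ hinj
  have hSm : ∀ t ∈ S, ∃ z ∈ W, (z : ℝ) = t := fun t ht => mem_image.1 ht
  have hWS : WS S 0 T := by
    refine ⟨?_, ?_⟩
    · intro t ht u hu htu
      obtain ⟨z, hz, rfl⟩ := hSm t ht
      obtain ⟨w, hw, rfl⟩ := hSm u hu
      have hzw : z - w ≠ 0 := by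
        intro h
        apply htu
        have : z = w := by omega
        rw [this]
      have := Int.one_le_abs hzw
      rw [← Int.cast_sub, ← Int.cast_abs]
      exact_mod_cast this
    · intro t ht
      obtain ⟨z, hz, rfl⟩ := hSm t ht
      have := hW z hz
      exact ⟨this.1, by linarith [this.2.1]⟩
  have hD : ∀ t : ℝ, D N b t = DD I b t := by
    intro t
    unfold D DD ee
    refine sum_congr rfl fun n _ => ?_
    push_cast
    rfl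
  have hen : W.addEnergy W ≤ S.addEnergy S := by
    unfold Finset.addEnergy
    refine card_le_card_of_injOn
      (fun p : (ℤ × ℤ) × ℤ × ℤ => (((p.1.1 : ℝ), (p.1.2 : ℝ)), ((p.2.1 : ℝ), (p.2.2 : ℝ)))) ?_ ?_
    · intro p hp
      rw [mem_coe, mem_filter, mem_product, mem_product, mem_product] at hp ⊢
      obtain ⟨⟨⟨h1, h2⟩, h3, h4⟩, h5⟩ := hp
      refine ⟨⟨⟨mem_image_of_mem _ h1, mem_image_of_mem _ h2⟩, mem_image_of_mem _ h3,
        mem_image_of_mem _ h4⟩, ?_⟩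
      show (p.1.1 : ℝ) + (p.2.1 : ℝ) = (p.1.2 : ℝ) + (p.2.2 : ℝ)
      exact_mod_cast h5
    · intro p _ q _ hpq
      simp only [Prod.mk.injEq, Int.cast_inj] at hpq
      exact Prod.ext (Prod.ext hpq.1.1 hpq.1.2) (Prod.ext hpq.2.1 hpq.2.2)
  have h1 := energy_large hI1 b hb S V hV (by
    intro t ht
    obtain ⟨z, hz, rfl⟩ := hSm t ht
    rw [← hD]
    exact (hW z hz).2.2)
  have h2 := hC β hβ0 hβ1 T hT1 S 0 hWS (2 * N) (by omega) (by push_cast; exact hNT)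
    (by rw [hcard]; exact hTβ) I hIN
  rw [hcard] at h1 h2
  have hγe : gam m β = 2 * (1 - β) * (m + 1) / (m + 1 - β) := rfl
  rw [hγe] at h2
  set γ : ℝ := max 1 (2 * (1 - β) * (m + 1) / (m + 1 - β)) with hγ
  have hγ0 : 0 ≤ γ := le_trans zero_le_one (le_max_left _ _)
  have hγ2 : γ ≤ 2 := by
    rw [hγ]
    apply max_le (by norm_num)
    rw [div_le_iff₀ (by linarith)]
    nlinarith [mul_nonneg hβ0 (by linarith : (0 : ℝ) ≤ m)]
  have h3 : ((2 * N : ℕ) : ℝ) ^ γ ≤ 4 * (N : ℝ) ^ γ := by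
    push_cast
    rw [Real.mul_rpow (by norm_num) (by linarith)]
    have h4 : (2 : ℝ) ^ γ ≤ 2 ^ (2 : ℝ) := Real.rpow_le_rpow_of_exponent_le (by norm_num) hγ2
    have h5 : (2 : ℝ) ^ (2 : ℝ) = 4 := by norm_num
    rw [h5] at h4
    exact mul_le_mul_of_nonneg_right h4 (Real.rpow_nonneg (by linarith) _)
  calc V ^ 2 * (W.addEnergy W : ℕ) ≤ V ^ 2 * (S.addEnergy S : ℕ) := by
        have : ((W.addEnergy W : ℕ) : ℝ) ≤ (S.addEnergy S : ℕ) := by exact_mod_cast hen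
        gcongr
    _ ≤ _ := h1
    _ ≤ (W.card : ℝ) * (C * T ^ ε * (W.card : ℝ) ^ 2 * ((2 * N : ℕ) : ℝ) ^ γ) := by gcongr
    _ ≤ (W.card : ℝ) * (C * T ^ ε * (W.card : ℝ) ^ 2 * (4 * (N : ℝ) ^ γ)) := by gcongr
    _ = _ := by ring

theorem result :
    (∀ (m : ℕ), 1 ≤ m → ∀ ε : ℝ, 0 < ε → ∃ C : ℝ, 1 ≤ C ∧
      ∀ (β T V : ℝ) (N : ℕ) (b : ℕ → ℂ) (W : Finset ℤ), 0 ≤ β → β ≤ 1 → 1 ≤ N → 0 ≤ V →
        (2 * N : ℝ) ^ (2 * m) ≤ T → (∀ n ∈ Finset.Icc N (2 * N), ‖b n‖ ≤ 1) →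
        (∀ t ∈ W, 0 ≤ (t : ℝ) ∧ (t : ℝ) ≤ T ∧ V ≤ ‖D N b t‖) → T ^ β ≤ (W.card : ℝ) →
        V ^ 2 * (W.addEnergy W : ℕ) ≤
          C * T ^ ε * (W.card : ℝ) ^ 3 * (N : ℝ) ^ max 1 (2 * (1 - β) * (m + 1) / (m + 1 - β))) ∧
    (∀ (m : ℕ), 1 ≤ m → ∀ σ κ A ε : ℝ, σ ≤ 1 → 0 ≤ κ → 1 < 2 * σ - κ → 0 < ε → ∃ C : ℝ,
      ∀ (N : ℕ) (T : ℝ) (b : ℕ → ℂ) (W : Finset ℤ), 1 ≤ N →
        (2 * N : ℝ) ^ (2 * m) ≤ T → T ≤ (N : ℝ) ^ A → (∀ n ∈ Finset.Icc N (2 * N), ‖b n‖ ≤ 1) →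
        (∀ t ∈ W, 0 ≤ (t : ℝ) ∧ (t : ℝ) ≤ T ∧ (N : ℝ) ^ σ < ‖D N b t‖) →
        (N : ℝ) ^ (-κ) * (W.card : ℝ) ^ 3 ≤ (W.addEnergy W : ℕ) →
        (W.card : ℝ) ≤ C * T ^ ((2 - (2 * σ - κ)) / (2 - (2 * σ - κ) / (m + 1)) + ε)) := by
  classical
  refine ⟨partA, ?_⟩
  intro m hm σ κ A ε hσ hκ hy hε
  have hmr : (1 : ℝ) ≤ m := by exact_mod_cast hm
  set y : ℝ := 2 * σ - κ with hyd
  have hy2 : y ≤ 2 := by rw [hyd]; linarith
  set e : ℝ := (2 - y) / (2 - y / (m + 1)) with he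
  have hm1 : (0 : ℝ) < m + 1 := by linarith
  have hden : 0 < 2 - y / (m + 1) := by
    have : y / (m + 1) < 2 := by
      rw [div_lt_iff₀ hm1]; nlinarith
    linarith
  have he0 : 0 ≤ e := div_nonneg (by linarith) hden.le
  -- the defining equation of `e`
  have hee : 2 * (1 - e) * (m + 1) = y * (m + 1 - e) := by
    have h1 : e * (2 - y / (m + 1)) = 2 - y := by rw [he]; exact div_mul_cancel₀ _ hden.ne'
    have h2 : e * (2 * (m + 1) - y) = (2 - y) * (m + 1) := by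
      have : e * (2 * (m + 1) - y) = (e * (2 - y / (m + 1))) * (m + 1) := by field_simp
      rw [this, h1]
    linarith
  set δ : ℝ := min ε (y - 1) with hδ
  have hδ0 : 0 < δ := lt_min hε (by linarith)
  have hδε : δ ≤ ε := min_le_left _ _
  have hδy : δ ≤ y - 1 := min_le_right _ _
  set ε' : ℝ := δ / (2 * (|A| + 1)) with hε'
  have hA0 : 0 ≤ |A| := abs_nonneg A
  have hε'0 : 0 < ε' := by positivity
  obtain ⟨C, hC1, hC⟩ := partA m hm ε' hε'0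
  set B : ℝ := (4 * C) ^ (2 * |A| / δ) with hB
  have h4C : 1 ≤ 4 * C := by linarith
  have hB1 : 1 ≤ B := Real.one_le_rpow h4C (by positivity)
  refine ⟨2 * B, ?_⟩
  intro N T b W hN hNT hTA hb hW hE
  have hNr : (1 : ℝ) ≤ N := by exact_mod_cast hN
  have hN0 : (0 : ℝ) < N := by linarith
  have hT1 : 1 ≤ T := le_trans (one_le_pow₀ (by linarith)) hNT
  have hT0 : 0 < T := by linarith
  have hTe1 : 1 ≤ T ^ (e + ε) := Real.one_le_rpow hT1 (by linarith)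
  -- the trivial bound
  have hcard : (W.card : ℝ) ≤ 2 * T := by
    have h1 : W ⊆ Icc 0 ⌊T⌋ := by
      intro t ht
      have := hW t ht
      rw [mem_Icc]
      exact ⟨by exact_mod_cast this.1, Int.le_floor.2 this.2.1⟩
    have h2 := card_le_card h1
    rw [Int.card_Icc] at h2
    have h3 : (0 : ℤ) ≤ ⌊T⌋ := Int.floor_nonneg.2 hT0.le
    have h4 : ((⌊T⌋ + 1 - 0).toNat : ℤ) = ⌊T⌋ + 1 := by
      rw [Int.toNat_of_nonneg (by omega)]; ring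
    have h5 : (W.card : ℤ) ≤ ⌊T⌋ + 1 := by
      rw [← h4]; exact_mod_cast h2
    have h6 : (W.card : ℝ) ≤ (⌊T⌋ : ℝ) + 1 := by exact_mod_cast h5
    have h7 := Int.floor_le T
    linarith
  rcases le_or_gt 1 (e + ε) with hb1 | hb1
  · have h1 : T ≤ T ^ (e + ε) := by
      calc T = T ^ (1 : ℝ) := (Real.rpow_one T).symm
        _ ≤ _ := Real.rpow_le_rpow_of_exponent_le hT1 hb1
    calc (W.card : ℝ) ≤ 2 * T := hcard
      _ ≤ 2 * T ^ (e + ε) := by linarith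
      _ = 2 * 1 * T ^ (e + ε) := by ring
      _ ≤ 2 * B * T ^ (e + ε) := by gcongr
  rcases le_or_gt (W.card : ℝ) (T ^ (e + ε)) with hb2 | hb2
  · calc (W.card : ℝ) ≤ T ^ (e + ε) := hb2
      _ = 1 * 1 * T ^ (e + ε) := by ring
      _ ≤ 2 * B * T ^ (e + ε) := by gcongr; norm_num
  -- the main case
  set s : ℝ := (W.card : ℝ) with hs
  have hs0 : 0 < s := lt_of_lt_of_le (by linarith) hb2.le
  set V : ℝ := (N : ℝ) ^ σ with hV
  have hV0 : 0 < V := Real.rpow_pos_of_pos hN0 σ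
  have key := hC (e + ε) T V N b W (by linarith) hb1.le hN hV0.le hNT hb
    (fun t ht => ⟨(hW t ht).1, (hW t ht).2.1, (hW t ht).2.2.le⟩) hb2.le
  rw [← hs] at key
  have hγ : max 1 (2 * (1 - (e + ε)) * (m + 1) / (m + 1 - (e + ε))) ≤ y - δ := by
    apply max_le (by linarith)
    rw [div_le_iff₀ (by linarith)]
    have h1 : 2 * (1 - (e + ε)) * (m + 1) = y * (m + 1 - e) - 2 * ε * (m + 1) := by
      rw [← hee]; ring
    rw [h1]
    have h2 : (y - ε) * (m + 1 - (e + ε)) ≤ (y - δ) * (m + 1 - (e + ε)) := by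
      apply mul_le_mul_of_nonneg_right (by linarith) (by linarith)
    have h3 : y * (m + 1 - e) - 2 * ε * (m + 1) ≤ (y - ε) * (m + 1 - (e + ε)) := by
      nlinarith
    linarith
  have h1 : (N : ℝ) ^ y ≤ C * T ^ ε' * (N : ℝ) ^ (y - δ) := by
    have h2 : V ^ 2 = (N : ℝ) ^ (2 * σ) := by
      rw [hV, ← Real.rpow_natCast, ← Real.rpow_mul hN0.le]
      congr 1; push_cast; ring
    have h3 : (N : ℝ) ^ y * s ^ 3 ≤ (C * T ^ ε' * (N : ℝ) ^ (y - δ)) * s ^ 3 := by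
      calc (N : ℝ) ^ y * s ^ 3 = (N : ℝ) ^ (2 * σ) * ((N : ℝ) ^ (-κ) * s ^ 3) := by
            rw [← mul_assoc, ← Real.rpow_add hN0]
            congr 2
        _ ≤ (N : ℝ) ^ (2 * σ) * (W.addEnergy W : ℕ) := by gcongr
        _ = V ^ 2 * (W.addEnergy W : ℕ) := by rw [h2]
        _ ≤ _ := key
        _ ≤ C * T ^ ε' * s ^ 3 * (N : ℝ) ^ (y - δ) := by
            have := Real.rpow_le_rpow_of_exponent_le hNr hγ
            gcongr
        _ = _ := by ring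
    exact le_of_mul_le_mul_right h3 (by positivity)
  have hTN : T ^ ε' ≤ (N : ℝ) ^ (δ / 2) := by
    calc T ^ ε' ≤ ((N : ℝ) ^ |A|) ^ ε' := by
          apply Real.rpow_le_rpow hT0.le _ hε'0.le
          exact hTA.trans (Real.rpow_le_rpow_of_exponent_le hNr (le_abs_self A))
      _ = (N : ℝ) ^ (|A| * ε') := by rw [← Real.rpow_mul hN0.le]
      _ ≤ _ := by
          apply Real.rpow_le_rpow_of_exponent_le hNr
          rw [hε']
          have : |A| * (δ / (2 * (|A| + 1))) = δ / 2 * (|A| / (|A| + 1)) := by field_simp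
          rw [this]
          have h5 : |A| / (|A| + 1) ≤ 1 := by
            rw [div_le_one (by linarith)]; linarith
          nlinarith
  have h2 : (N : ℝ) ^ (δ / 2) ≤ C := by
    have h3 : (N : ℝ) ^ (δ / 2) * ((N : ℝ) ^ (δ / 2) * (N : ℝ) ^ (y - δ)) ≤
        C * ((N : ℝ) ^ (δ / 2) * (N : ℝ) ^ (y - δ)) := by
      calc (N : ℝ) ^ (δ / 2) * ((N : ℝ) ^ (δ / 2) * (N : ℝ) ^ (y - δ)) = (N : ℝ) ^ y := by
            rw [← Real.rpow_add hN0, ← Real.rpow_add hN0]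
            congr 1; ring
        _ ≤ C * T ^ ε' * (N : ℝ) ^ (y - δ) := h1
        _ ≤ C * (N : ℝ) ^ (δ / 2) * (N : ℝ) ^ (y - δ) := by gcongr
        _ = _ := by ring
    exact le_of_mul_le_mul_right h3 (by positivity)
  have h3 : T ≤ B := by
    calc T ≤ (N : ℝ) ^ |A| := hTA.trans (Real.rpow_le_rpow_of_exponent_le hNr (le_abs_self A))
      _ = ((N : ℝ) ^ (δ / 2)) ^ (2 * |A| / δ) := by
          rw [← Real.rpow_mul hN0.le]
          congr 1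
          field_simp
      _ ≤ (4 * C) ^ (2 * |A| / δ) := by
          apply Real.rpow_le_rpow (by positivity) (by linarith) (by positivity)
  calc s ≤ 2 * T := hcard
    _ ≤ 2 * B := by linarith
    _ = 2 * B * 1 := by ring
    _ ≤ 2 * B * T ^ (e + ε) := by gcongr

end Pool.Agent.Results.MP_ecd12e_nt.LargeAdditiveEnergy
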