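import Pool.Agent.X149.DirichletUniform

set_option autoImplicit false

/-!
# Montgomery's large value conjecture for randomly shifted integers

Let the integers of `[N, 2 N]` be divided into blocks of `H` consecutive integers, and let every
block be shifted by a random number of `[0, 1]`, the shifts of different blocks being independent.
With high probability the bound of Q1 holds, with a factor `log N` instead of `N ^ ε`, for all
coefficients, all sets `W` of integers of `[0, T]` and all `V = N ^ σ` with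
`V ^ 2 ≥ C N H (log N log (T + 2) + log (1 / δ))`.
-/

namespace Pool.Agent.Results.MP_ecd12e_nt.RandomFrequencies

open MeasureTheory Finset Pool.Agent.X149

/-- `D(t) = ∑_{N ≤ n ≤ 2 N} b_n (n + θ_m)^{it}`, where `m = ⌊(n - N) / H⌋` is the number of the block
of `H` consecutive integers which contains `n`. -/
noncomputable def D (N H : ℕ) (θ : Fin (N / H + 1) → ℝ) (b : ℕ → ℂ) (t : ℝ) : ℂ :=
  ∑ n ∈ Finset.Icc N (2 * N),
    b n * (((n : ℝ) + θ (Fin.ofNat (N / H + 1) ((n - N) / H)) : ℝ) : ℂ) ^ ((t : ℂ) * Complex.I)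

theorem D_eq (N H : ℕ) (hN : 1 ≤ N) (hH : 1 ≤ H) (θ : Fin (N / H + 1) → ℝ) (hθ : θ ∈ Set.Icc 0 1)
    (b : ℕ → ℂ) (t : ℝ) :
    D N H θ b t = ∑ k : Fin H × Fin (N / H + 1),
      (if (k.1 : ℕ) + H * (k.2 : ℕ) ≤ N then b (N + ((k.1 : ℕ) + H * (k.2 : ℕ))) else 0) *
        DU.ph t ((N : ℝ) + (((k.1 : ℕ) + H * (k.2 : ℕ) : ℕ) : ℝ) + 1 * θ k.2) := by
  obtain ⟨G, hG⟩ : ∃ G : ℕ → ℂ, G = fun n => (if n ≤ N then b (N + n) else 0) *
    DU.ph t ((N : ℝ) + (n : ℝ) + 1 * θ (Fin.ofNat (N / H + 1) (n / H))) := ⟨_, rfl⟩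
  have h1 : ∑ k : Fin H × Fin (N / H + 1),
      (if (k.1 : ℕ) + H * (k.2 : ℕ) ≤ N then b (N + ((k.1 : ℕ) + H * (k.2 : ℕ))) else 0) *
        DU.ph t ((N : ℝ) + (((k.1 : ℕ) + H * (k.2 : ℕ) : ℕ) : ℝ) + 1 * θ k.2) =
      ∑ n ∈ range ((N / H + 1) * H), G n := by
    rw [DU.sum_blocks, Fintype.sum_prod_type]
    refine sum_congr rfl (fun h _ => sum_congr rfl (fun m _ => ?_))
    have hdiv : ((h : ℕ) + H * (m : ℕ)) / H = m := by
      rw [Nat.add_mul_div_left _ _ (by omega), Nat.div_eq_of_lt h.2, zero_add]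
    have hm : Fin.ofNat (N / H + 1) (((h : ℕ) + H * (m : ℕ)) / H) = m := by
      rw [hdiv]
      exact Fin.ofNat_val_eq_self m
    rw [hG]
    simp only [hm]
  rw [h1]
  have h2 : ∑ n ∈ range ((N / H + 1) * H), G n = ∑ n ∈ range (N + 1), G n := by
    refine (sum_subset (range_subset_range.2 ?_) (fun n _ hn => ?_)).symm
    · have := Nat.lt_div_mul_add (a := N) (b := H) (by omega)
      rw [Nat.add_mul, one_mul]
      omega
    · rw [mem_range, not_lt] at hn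
      rw [hG]
      simp only
      rw [if_neg (by omega), zero_mul]
  rw [h2]
  have h3 : Finset.Icc N (2 * N) = Finset.Ico N (2 * N + 1) := rfl
  unfold D
  rw [h3, Finset.sum_Ico_eq_sum_range]
  have h4 : 2 * N + 1 - N = N + 1 := by omega
  rw [h4]
  refine sum_congr rfl (fun n hn => ?_)
  rw [mem_range] at hn
  rw [hG]
  simp only
  have h5 : N + n - N = n := by omega
  have h6 : 0 < (N : ℝ) + (n : ℝ) + 1 * θ (Fin.ofNat (N / H + 1) (n / H)) := by
    have h7 : (0 : ℝ) < N := by exact_mod_cast hN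
    have h8 : 0 ≤ θ (Fin.ofNat (N / H + 1) (n / H)) := hθ.1 _
    have h9 : (0 : ℝ) ≤ n := Nat.cast_nonneg n
    linarith
  rw [if_pos (by omega), DU.ph_cpow h6, h5]
  push_cast
  rw [one_mul]

theorem loss_bound {N H T : ℕ} {δ : ℝ} (hN : 2 ≤ N) (hH : 1 ≤ H) (hHN : H ≤ N) (hδ : 0 < δ)
    (hδ1 : δ ≤ 1) :
    DU.lossT (N / H + 1) H ((T + 1 : ℕ) : ℝ) δ ≤
      6200 * (H * (Real.log N * Real.log (T + 2) + Real.log (1 / δ))) := by
  unfold DU.lossT
  have hN0 : (2 : ℝ) ≤ N := by exact_mod_cast hN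
  have hT0 : (0 : ℝ) ≤ T := Nat.cast_nonneg T
  have hH1 : (1 : ℝ) ≤ H := by exact_mod_cast hH
  have hl2 := Real.log_two_gt_d9
  have hlN : Real.log 2 ≤ Real.log N := Real.log_le_log (by norm_num) hN0
  have hlT : Real.log 2 ≤ Real.log (T + 2) := Real.log_le_log (by norm_num) (by linarith)
  have hld : 0 ≤ Real.log (1 / δ) := Real.log_nonneg (by rw [le_div_iff₀ hδ]; linarith)
  have h1 : Real.log (16 * ((N / H + 1 : ℕ) + 1)) ≤ 6 * Real.log N := by
    have h2 : (16 : ℝ) * ((N / H + 1 : ℕ) + 1) ≤ 2 ^ 5 * N := by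
      have h3 : ((N / H : ℕ) : ℝ) ≤ N := by exact_mod_cast Nat.div_le_self N H
      push_cast
      linarith
    calc Real.log (16 * ((N / H + 1 : ℕ) + 1)) ≤ Real.log (2 ^ 5 * N) :=
          Real.log_le_log (by positivity) h2
      _ = 5 * Real.log 2 + Real.log N := by
          rw [Real.log_mul (by norm_num) (by linarith), Real.log_pow]
          norm_num
      _ ≤ _ := by linarith
  have h2 : Real.log ((T + 1 : ℕ) : ℝ) ≤ Real.log (T + 2) := by
    apply Real.log_le_log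
    · positivity
    · push_cast
      linarith
  have h3 : Real.log (H / δ) = Real.log H + Real.log (1 / δ) := by
    rw [div_eq_mul_one_div, Real.log_mul (by linarith) (by positivity)]
  have h4 : Real.log H ≤ Real.log N :=
    Real.log_le_log (by linarith) (by exact_mod_cast hHN)
  have h5 : 0 ≤ Real.log ((T + 1 : ℕ) : ℝ) := Real.log_nonneg (by push_cast; linarith)
  have h6 : 0 ≤ Real.log N := by linarith
  have h7 : Real.log (16 * ((N / H + 1 : ℕ) + 1)) * Real.log ((T + 1 : ℕ) : ℝ) ≤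
      6 * Real.log N * Real.log (T + 2) := by
    apply mul_le_mul h1 h2 h5 (by positivity)
  have h8 : (1 : ℝ) ≤ 3 * (Real.log N * Real.log (T + 2)) := by nlinarith
  have h9 : Real.log N ≤ 2 * (Real.log N * Real.log (T + 2)) := by nlinarith
  have h10 : 3 + 1025 * Real.log (16 * ((N / H + 1 : ℕ) + 1)) * Real.log ((T + 1 : ℕ) : ℝ) +
      Real.log (H / δ) ≤ 6200 * (Real.log N * Real.log (T + 2) + Real.log (1 / δ)) := by
    rw [h3]
    nlinarith
  calc (H : ℝ) * (3 + 1025 * Real.log (16 * ((N / H + 1 : ℕ) + 1)) *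
        Real.log ((T + 1 : ℕ) : ℝ) + Real.log (H / δ))
      ≤ H * (6200 * (Real.log N * Real.log (T + 2) + Real.log (1 / δ))) :=
        mul_le_mul_of_nonneg_left h10 (by linarith)
    _ = _ := by ring

theorem log_le_two_sqrt {R : ℝ} (hR : 1 ≤ R) : 2 + Real.log R ≤ 2 * Real.sqrt R := by
  have h1 : Real.log (Real.sqrt R) ≤ Real.sqrt R - 1 :=
    Real.log_le_sub_one_of_pos (Real.sqrt_pos.2 (by linarith))
  have h2 : Real.log (Real.sqrt R) = Real.log R / 2 := Real.log_sqrt (by linarith)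
  linarith

theorem final_bound {N R : ℕ} {V : ℝ} (hN : 2 ≤ N) (hR : 1 ≤ R) (hV : (N : ℝ) ≤ V ^ 2)
    (h : V ^ 2 * R ≤ 53248 * N ^ 2 * (2 + Real.log R)) :
    V ^ 2 * R ≤ 2200000 * N ^ 2 * Real.log N := by
  have hN0 : (2 : ℝ) ≤ N := by exact_mod_cast hN
  have hR0 : (1 : ℝ) ≤ R := by exact_mod_cast hR
  have hl2 := Real.log_two_gt_d9
  have hlN : Real.log 2 ≤ Real.log N := Real.log_le_log (by norm_num) hN0
  have hs := log_le_two_sqrt hR0
  have hsp : 0 < Real.sqrt R := Real.sqrt_pos.2 (by linarith)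
  have hsq : Real.sqrt R * Real.sqrt R = R := Real.mul_self_sqrt (by linarith)
  have h1 : (N : ℝ) * R ≤ 53248 * N ^ 2 * (2 * Real.sqrt R) := by
    calc (N : ℝ) * R ≤ V ^ 2 * R := mul_le_mul_of_nonneg_right hV (by linarith)
      _ ≤ 53248 * N ^ 2 * (2 + Real.log R) := h
      _ ≤ _ := mul_le_mul_of_nonneg_left hs (by positivity)
  have h2 : Real.sqrt R ≤ 106496 * N := by
    have h3 : (N * Real.sqrt R) * Real.sqrt R ≤ (N * Real.sqrt R) * (106496 * N) := by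
      calc (N * Real.sqrt R) * Real.sqrt R = N * R := by rw [mul_assoc, hsq]
        _ ≤ _ := h1
        _ = _ := by ring
    exact le_of_mul_le_mul_left h3 (by positivity)
  have h3 : Real.log R ≤ 24 + 2 * Real.log N := by
    have h4 : Real.log (Real.sqrt R) = Real.log R / 2 := Real.log_sqrt (by linarith)
    have h5 : Real.log (Real.sqrt R) ≤ Real.log (106496 * N) := Real.log_le_log hsp h2
    rw [Real.log_mul (by norm_num) (by linarith), h4] at h5
    have h6 : Real.log 106496 ≤ 12 := by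
      rw [Real.log_le_iff_le_exp (by norm_num)]
      have h7 : (2.7182818283 : ℝ) ≤ Real.exp 1 := Real.exp_one_gt_d9.le
      have h8 : Real.exp 12 = Real.exp 1 ^ 12 := by
        rw [← Real.exp_nat_mul]
        norm_num
      rw [h8]
      calc (106496 : ℝ) ≤ 2.7182818283 ^ 12 := by norm_num
        _ ≤ _ := pow_le_pow_left₀ (by norm_num) h7 12
    linarith
  calc V ^ 2 * R ≤ 53248 * N ^ 2 * (2 + Real.log R) := h
    _ ≤ 53248 * N ^ 2 * (41 * Real.log N) := by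
        apply mul_le_mul_of_nonneg_left _ (by positivity)
        linarith
    _ ≤ _ := by
        have : 0 ≤ (N : ℝ) ^ 2 * Real.log N := by
          have : 0 ≤ Real.log N := by linarith
          positivity
        nlinarith

theorem part_one (N H T : ℕ) (δ : ℝ) (hN : 2 ≤ N) (hH : 1 ≤ H) (hHN : H ≤ N) (hδ : 0 < δ)
    (hδ1 : δ ≤ 1) : ∃ E : Set (Fin (N / H + 1) → ℝ), MeasurableSet E ∧
      volume (E ∩ Set.Icc 0 1) ≤ ENNReal.ofReal δ ∧
      ∀ θ ∈ Set.Icc (0 : Fin (N / H + 1) → ℝ) 1, θ ∉ E → ∀ b : ℕ → ℂ, (∀ n, ‖b n‖ ≤ 1) →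
        ∀ (V : ℝ) (W : Finset ℕ), 0 < V → (∀ t ∈ W, t ≤ T) → (∀ t ∈ W, V ≤ ‖D N H θ b t‖) →
        10 ^ 7 * N * H * (Real.log N * Real.log (T + 2) + Real.log (1 / δ)) ≤ V ^ 2 →
        W.card * V ^ 2 ≤ 10 ^ 7 * N ^ 2 * Real.log N := by
  classical
  have hN0 : (2 : ℝ) ≤ N := by exact_mod_cast hN
  have hH1 : (1 : ℝ) ≤ H := by exact_mod_cast hH
  have hl2 := Real.log_two_gt_d9
  have hlN : Real.log 2 ≤ Real.log N := Real.log_le_log (by norm_num) hN0
  have hT0 : (0 : ℝ) ≤ T := Nat.cast_nonneg T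
  have hlT : Real.log 2 ≤ Real.log (T + 2) := Real.log_le_log (by norm_num) (by linarith)
  have hld : 0 ≤ Real.log (1 / δ) := Real.log_nonneg (by rw [le_div_iff₀ hδ]; linarith)
  let 𝒯 : Finset ℝ := (range (T + 1)).image (fun n : ℕ => (n : ℝ))
  have h𝒯card : 𝒯.card = T + 1 := by
    rw [card_image_of_injective _ Nat.cast_injective, card_range]
  have h𝒯 : 𝒯.Nonempty := card_pos.1 (by omega)
  obtain ⟨E, hE1, hE2, hE3⟩ := DU.large 𝒯 h𝒯 (N / H + 1) H hH N 1 δ (by linarith) one_pos le_rfl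
    hδ hδ1
  refine ⟨E, hE1, hE2, ?_⟩
  intro θ hθ hθE b hb V W hV hWT hWV hVbig
  rcases W.eq_empty_or_nonempty with hW0 | hWn
  · rw [hW0]
    simp only [card_empty, Nat.cast_zero, zero_mul]
    have : 0 ≤ Real.log N := by linarith
    positivity
  let W' : Finset ℝ := W.image (fun n : ℕ => (n : ℝ))
  have hW'card : W'.card = W.card := card_image_of_injective _ Nat.cast_injective
  obtain ⟨R, hR1, hR2, hR3⟩ := hE3 θ hθE
    (fun k => if (k.1 : ℕ) + H * (k.2 : ℕ) ≤ N then b (N + ((k.1 : ℕ) + H * (k.2 : ℕ))) else 0)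
    (by
      intro k
      split_ifs
      · exact hb _
      · simp) V hV 1 one_pos W' (by
      intro t ht
      obtain ⟨n, hn, rfl⟩ := mem_image.1 ht
      exact mem_image.2 ⟨n, mem_range.2 (by have := hWT n hn; omega), rfl⟩) (hWn.image _) (by
      intro t ht u hu htu
      obtain ⟨n, hn, rfl⟩ := mem_image.1 ht
      obtain ⟨m, hm, rfl⟩ := mem_image.1 hu
      have hne : (n : ℤ) - m ≠ 0 := by
        intro h
        apply htu
        have : (n : ℤ) = m := by omega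
        exact_mod_cast this
      have h1 := Int.one_le_abs hne
      have h2 : ((1 : ℤ) : ℝ) ≤ ((|(n : ℤ) - m| : ℤ) : ℝ) := by exact_mod_cast h1
      push_cast at h2
      exact h2) (by
      intro t ht
      obtain ⟨n, hn, rfl⟩ := mem_image.1 ht
      have := hWV n hn
      rwa [D_eq N H (by omega) hH θ hθ b] at this)
  rw [h𝒯card] at hR3
  have hloss := loss_bound (T := T) hN hH hHN hδ hδ1
  have hR0 : (1 : ℝ) ≤ R := by exact_mod_cast hR1
  have hlR : 0 ≤ Real.log R := Real.log_nonneg hR0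
  have hMH : ((N / H + 1 : ℕ) : ℝ) * H ≤ 2 * N := by
    have h1 : (N / H + 1) * H ≤ N + H := by
      rw [Nat.add_mul, one_mul]
      have := Nat.div_mul_le_self N H
      omega
    have h2 : (N / H + 1) * H ≤ 2 * N := by omega
    exact_mod_cast h2
  have hMH0 : (0 : ℝ) ≤ ((N / H + 1 : ℕ) : ℝ) * H := by positivity
  obtain ⟨Z, hZ⟩ : ∃ Z : ℝ, Z = ((N / H + 1 : ℕ) : ℝ) * H := ⟨_, rfl⟩
  rw [← hZ] at hR3 hMH hMH0
  obtain ⟨Λ, hΛ⟩ : ∃ Λ : ℝ, Λ = H * (Real.log N * Real.log (T + 2) + Real.log (1 / δ)) := ⟨_, rfl⟩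
  rw [← hΛ] at hloss
  have hVΛ : 10 ^ 7 * N * Λ ≤ V ^ 2 := by
    rw [hΛ]
    calc _ = 10 ^ 7 * (N : ℝ) * H * (Real.log N * Real.log (T + 2) + Real.log (1 / δ)) := by ring
      _ ≤ _ := hVbig
  have hΛ1 : 1 ≤ 3 * Λ := by
    have h1 : (1 : ℝ) ≤ 3 * (Real.log N * Real.log (T + 2)) := by nlinarith
    rw [hΛ]
    nlinarith
  have h1 : V ^ 2 ≤ 256 * N * (8 * ((2 * N + 12 * N * (2 + Real.log R)) * (1 / R)) +
      6200 * Λ) := by
    refine hR3.trans ?_
    have h2 : (0 : ℝ) ≤ 1 / R := by positivity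
    have h3 : (Z + 4 * (N + Z) * (2 + Real.log R) / 1) ≤
        2 * N + 12 * N * (2 + Real.log R) := by
      rw [div_one]
      nlinarith
    have h4 : (1 : ℝ)⁻¹ * ((Z + 4 * (N + Z) * (2 + Real.log R) / 1) * (1 / R)) ≤
        (2 * N + 12 * N * (2 + Real.log R)) * (1 / R) := by
      rw [inv_one, one_mul]
      exact mul_le_mul_of_nonneg_right h3 h2
    have h5 : 0 ≤ (2 * N + 12 * N * (2 + Real.log R)) * (1 / (R : ℝ)) := by positivity
    calc 128 * Z * (8 * ((1 : ℝ)⁻¹ * ((Z + 4 * (N + Z) * (2 + Real.log R) / 1) * (1 / R))) +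
          DU.lossT (N / H + 1) H ((T + 1 : ℕ) : ℝ) δ)
        ≤ 128 * Z * (8 * ((2 * N + 12 * N * (2 + Real.log R)) * (1 / R)) + 6200 * Λ) := by
          apply mul_le_mul_of_nonneg_left _ (by positivity)
          linarith
      _ ≤ _ := by
          apply mul_le_mul_of_nonneg_right _ (by linarith)
          linarith
  have h2 : V ^ 2 * R ≤ 53248 * N ^ 2 * (2 + Real.log R) := by
    have h3 : V ^ 2 / 2 ≤ 256 * N * (8 * ((2 * N + 12 * N * (2 + Real.log R)) * (1 / R))) := by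
      nlinarith
    have h4 : V ^ 2 / 2 * R ≤ 256 * N * (8 * (2 * N + 12 * N * (2 + Real.log R))) := by
      calc V ^ 2 / 2 * R ≤ 256 * N * (8 * ((2 * N + 12 * N * (2 + Real.log R)) * (1 / R))) * R :=
            mul_le_mul_of_nonneg_right h3 (by linarith)
        _ = _ := by
            field_simp
    nlinarith
  have h3 := final_bound hN hR1 (by nlinarith) h2
  have h4 : (W.card : ℝ) ≤ 4 * R := by
    rw [← hW'card]
    exact_mod_cast hR2
  have h5 : 0 ≤ (N : ℝ) ^ 2 * Real.log N := by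
    have : 0 ≤ Real.log N := by linarith
    positivity
  calc (W.card : ℝ) * V ^ 2 ≤ 4 * R * V ^ 2 := mul_le_mul_of_nonneg_right h4 (sq_nonneg V)
    _ = 4 * (V ^ 2 * R) := by ring
    _ ≤ 4 * (2200000 * N ^ 2 * Real.log N) := by linarith
    _ ≤ _ := by nlinarith

theorem part_two (A B : ℝ) (hA : 0 ≤ A) (hB : 0 ≤ B) : ∃ C : ℝ, 0 < C ∧
    ∀ N H T : ℕ, 2 ≤ N → 1 ≤ H → H ≤ N → (T : ℝ) ≤ (N : ℝ) ^ A →
      ∃ E : Set (Fin (N / H + 1) → ℝ), MeasurableSet E ∧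
        volume (E ∩ Set.Icc 0 1) ≤ ENNReal.ofReal ((N : ℝ) ^ (-B)) ∧
        ∀ θ ∈ Set.Icc (0 : Fin (N / H + 1) → ℝ) 1, θ ∉ E → ∀ b : ℕ → ℂ, (∀ n, ‖b n‖ ≤ 1) →
          ∀ σ : ℝ, C * H * Real.log N ^ 2 ≤ (N : ℝ) ^ (2 * σ - 1) →
            ∀ W : Finset ℕ, (∀ t ∈ W, t ≤ T) → (∀ t ∈ W, (N : ℝ) ^ σ < ‖D N H θ b t‖) →
              (W.card : ℝ) ≤ C * (N : ℝ) ^ (2 - 2 * σ) * Real.log N := by
  refine ⟨10 ^ 7 * (2 + A + 2 * B), by positivity, ?_⟩
  intro N H T hN hH hHN hT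
  have hN0 : (2 : ℝ) ≤ N := by exact_mod_cast hN
  have hNp : (0 : ℝ) < N := by linarith
  have hH1 : (1 : ℝ) ≤ H := by exact_mod_cast hH
  have hT0 : (0 : ℝ) ≤ T := Nat.cast_nonneg T
  have hl2 := Real.log_two_gt_d9
  have hlN : Real.log 2 ≤ Real.log N := Real.log_le_log (by norm_num) hN0
  have hNA : (1 : ℝ) ≤ (N : ℝ) ^ A := Real.one_le_rpow (by linarith) hA
  have hlT : Real.log (T + 2) ≤ (2 + A) * Real.log N := by
    calc Real.log (T + 2) ≤ Real.log (2 ^ 2 * (N : ℝ) ^ A) :=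
          Real.log_le_log (by linarith) (by linarith)
      _ = 2 * Real.log 2 + A * Real.log N := by
          rw [Real.log_mul (by norm_num) (by positivity), Real.log_pow, Real.log_rpow hNp]
          norm_num
      _ ≤ _ := by linarith
  obtain ⟨E, hE1, hE2, hE3⟩ := part_one N H T ((N : ℝ) ^ (-B)) hN hH hHN (by positivity)
    (Real.rpow_le_one_of_one_le_of_nonpos (by linarith) (by linarith))
  refine ⟨E, hE1, hE2, ?_⟩
  intro θ hθ hθE b hb σ hσ W hWT hWV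
  have hld : Real.log (1 / (N : ℝ) ^ (-B)) = B * Real.log N := by
    rw [one_div, ← Real.rpow_neg hNp.le, neg_neg, Real.log_rpow hNp]
  have hV2 : ((N : ℝ) ^ σ) ^ 2 = N * (N : ℝ) ^ (2 * σ - 1) := by
    rw [← Real.rpow_natCast, ← Real.rpow_mul hNp.le]
    nth_rewrite 2 [← Real.rpow_one (N : ℝ)]
    rw [← Real.rpow_add hNp]
    congr 1
    push_cast
    ring
  have h1 := hE3 θ hθ hθE b hb ((N : ℝ) ^ σ) W (Real.rpow_pos_of_pos hNp σ) hWT
    (fun t ht => (hWV t ht).le) (by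
      rw [hld, hV2]
      have h2 : Real.log N * Real.log (T + 2) + B * Real.log N ≤
          (2 + A + 2 * B) * Real.log N ^ 2 := by
        have h3 : Real.log N * Real.log (T + 2) ≤ Real.log N * ((2 + A) * Real.log N) :=
          mul_le_mul_of_nonneg_left hlT (by linarith)
        have h4 : B * Real.log N ≤ 2 * B * Real.log N ^ 2 := by
          have : 0 ≤ B * Real.log N := by
            have : 0 ≤ Real.log N := by linarith
            positivity
          nlinarith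
        nlinarith
      calc 10 ^ 7 * (N : ℝ) * H * (Real.log N * Real.log (T + 2) + B * Real.log N)
          ≤ 10 ^ 7 * (N : ℝ) * H * ((2 + A + 2 * B) * Real.log N ^ 2) :=
            mul_le_mul_of_nonneg_left h2 (by positivity)
        _ = N * (10 ^ 7 * (2 + A + 2 * B) * H * Real.log N ^ 2) := by ring
        _ ≤ N * (N : ℝ) ^ (2 * σ - 1) := mul_le_mul_of_nonneg_left hσ hNp.le)
  have hpos : 0 < ((N : ℝ) ^ σ) ^ 2 := by positivity
  have hl0 : 0 ≤ Real.log N := by linarith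
  have h3 : (N : ℝ) ^ 2 = (N : ℝ) ^ (2 - 2 * σ) * ((N : ℝ) ^ σ) ^ 2 := by
    rw [← Real.rpow_natCast ((N : ℝ) ^ σ) 2, ← Real.rpow_mul hNp.le, ← Real.rpow_add hNp,
      ← Real.rpow_natCast (N : ℝ) 2]
    congr 1
    push_cast
    ring
  have h4 : (W.card : ℝ) * ((N : ℝ) ^ σ) ^ 2 ≤
      (10 ^ 7 * (N : ℝ) ^ (2 - 2 * σ) * Real.log N) * ((N : ℝ) ^ σ) ^ 2 := by
    calc (W.card : ℝ) * ((N : ℝ) ^ σ) ^ 2 ≤ 10 ^ 7 * (N : ℝ) ^ 2 * Real.log N := h1
      _ = _ := by rw [h3]; ring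
  have h5 := le_of_mul_le_mul_right h4 hpos
  refine h5.trans ?_
  have h6 : 0 ≤ (N : ℝ) ^ (2 - 2 * σ) * Real.log N := by positivity
  nlinarith

/-- **Montgomery's large value conjecture for randomly shifted integers.** (1) Let `1 ≤ H ≤ N`,
`N ≥ 2`, let `T` be any integer and `0 < δ ≤ 1`. For all shifts `θ ∈ [0, 1] ^ (⌊N / H⌋ + 1)` outside
a set of measure at most `δ` the following holds for all coefficients with `|b_n| ≤ 1`, all `V > 0`
with `V ^ 2 ≥ 10 ^ 7 N H (log N log (T + 2) + log (1 / δ))` and all sets `W` of integers of `[0, T]`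
with `|D(t)| ≥ V` on `W`: `|W| V ^ 2 ≤ 10 ^ 7 N ^ 2 log N`. (2) For `T ≤ N ^ A`, outside a set of
measure at most `N ^ (-B)`: for all `σ` with `N ^ (2 σ - 1) ≥ C H (log N) ^ 2` every set `W` of
integers of `[0, T]` with `|D(t)| > N ^ σ` on `W` has at most `C N ^ (2 - 2 σ) log N` elements. -/
theorem result :
    (∀ (N H T : ℕ) (δ : ℝ), 2 ≤ N → 1 ≤ H → H ≤ N → 0 < δ → δ ≤ 1 →
      ∃ E : Set (Fin (N / H + 1) → ℝ), MeasurableSet E ∧
        volume (E ∩ Set.Icc 0 1) ≤ ENNReal.ofReal δ ∧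
        ∀ θ ∈ Set.Icc (0 : Fin (N / H + 1) → ℝ) 1, θ ∉ E → ∀ b : ℕ → ℂ, (∀ n, ‖b n‖ ≤ 1) →
          ∀ (V : ℝ) (W : Finset ℕ), 0 < V → (∀ t ∈ W, t ≤ T) → (∀ t ∈ W, V ≤ ‖D N H θ b t‖) →
          10 ^ 7 * N * H * (Real.log N * Real.log (T + 2) + Real.log (1 / δ)) ≤ V ^ 2 →
          W.card * V ^ 2 ≤ 10 ^ 7 * N ^ 2 * Real.log N) ∧
    (∀ A B : ℝ, 0 ≤ A → 0 ≤ B → ∃ C : ℝ, 0 < C ∧
      ∀ N H T : ℕ, 2 ≤ N → 1 ≤ H → H ≤ N → (T : ℝ) ≤ (N : ℝ) ^ A →
        ∃ E : Set (Fin (N / H + 1) → ℝ), MeasurableSet E ∧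
          volume (E ∩ Set.Icc 0 1) ≤ ENNReal.ofReal ((N : ℝ) ^ (-B)) ∧
          ∀ θ ∈ Set.Icc (0 : Fin (N / H + 1) → ℝ) 1, θ ∉ E → ∀ b : ℕ → ℂ, (∀ n, ‖b n‖ ≤ 1) →
            ∀ σ : ℝ, C * H * Real.log N ^ 2 ≤ (N : ℝ) ^ (2 * σ - 1) →
              ∀ W : Finset ℕ, (∀ t ∈ W, t ≤ T) → (∀ t ∈ W, (N : ℝ) ^ σ < ‖D N H θ b t‖) →
                (W.card : ℝ) ≤ C * (N : ℝ) ^ (2 - 2 * σ) * Real.log N) :=
  ⟨part_one, part_two⟩

end Pool.Agent.Results.MP_ecd12e_nt.RandomFrequencies
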